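import Pool.Agent.V8H30.ST.NonCyc
import Pool.Agent.V8H30.ST.CycCase

/-!
Question Q2 of the problem on starters in finite groups of even order: a finite group of 2-power
order that admits no starter is cyclic.  The definitions (`Fixes`, `IsShort`, `diff`, `ends`,
`IsLeftTransversal`, `IsStarter`, `HasStarter`) are in `Pool.Agent.V8H30.ST.Def`.
-/

namespace Pool.Agent.Results.MP_da365b_co.TwoGroupsHaveStarters

open Pool.Agent.V8H30.ST

/-- Every finite group of order a power of two that admits no starter is cyclic. -/
theorem result {G : Type*} [Group G] [Finite G] (hG : ∃ n : ℕ, Nat.card G = 2 ^ n)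
    (hs : ¬ HasStarter G) : IsCyclic G := by
  obtain ⟨n, hn⟩ := hG
  have hp : IsPGroup 2 G := IsPGroup.of_card hn
  by_contra hnc
  apply hs
  by_cases hc : IsCyclic (Phi G)
  · obtain ⟨D, hD, h⟩ := cyclic_case hp hnc hc
    exact hasStarter_of_frattini D hD fun g hg h2 => h g (mem_Phi.2 hg) h2
  · obtain ⟨D, hD, h⟩ := noncyclic_case hp hc
    exact hasStarter_of_frattini D hD fun g hg h2 => h g (mem_Phi.2 hg) h2

end Pool.Agent.Results.MP_da365b_co.TwoGroupsHaveStarters
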